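import Pool.Agent.H29.PS2

open Set Filter Topology
open scoped ENNReal

namespace Pool.Agent.Results.MP_7aa09c_an.Counter

section defs

variable (X Y : Type) [NormedAddCommGroup X] [NormedSpace ℝ X] [NormedAddCommGroup Y]
  [NormedSpace ℝ Y]

/-- the pointwise Bishop-Phelps-Bollobas property of the pair `(X, Y)` -/
def PBPB : Prop :=
  ∀ ε > 0, ∃ η > 0, ∀ (T : X →L[ℝ] Y) (x₀ : X), ‖T‖ = 1 → ‖x₀‖ = 1 → 1 - η < ‖T x₀‖ →
    ∃ S : X →L[ℝ] Y, ‖S‖ = 1 ∧ ‖S x₀‖ = 1 ∧ ‖S - T‖ < ε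

/-- the Bishop-Phelps-Bollobas property of the pair `(X, Y)` -/
def BPB : Prop :=
  ∀ ε > 0, ∃ η > 0, ∀ (T : X →L[ℝ] Y) (x₀ : X), ‖T‖ = 1 → ‖x₀‖ = 1 → 1 - η < ‖T x₀‖ →
    ∃ (x : X) (S : X →L[ℝ] Y), ‖x‖ = 1 ∧ ‖S‖ = 1 ∧ ‖S x‖ = 1 ∧ ‖x - x₀‖ < ε ∧ ‖S - T‖ < ε

variable {X Y} in
lemma PBPB.bpb (h : PBPB X Y) : BPB X Y := fun ε hε =>
  (h ε hε).imp fun _ h => ⟨h.1, fun T x a b c => (h.2 T x a b c).elim fun S hS =>
    ⟨x, S, b, hS.1, hS.2.1, by simpa using hε, hS.2.2⟩⟩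

end defs

section constr

variable (A : Type) [NormedAddCommGroup A] [NormedSpace ℝ A]

/-- the index set -/
abbrev I : Type := {γ : A →L[ℝ] ℝ // ‖γ‖ ≤ 1} × ℕ

/-- bounded families -/
abbrev L : Type := lp (fun _ : I A => ℝ) ∞

/-- the range space -/
def Y : Submodule ℝ (A × L A) where
  carrier := {p | ∀ γ, Tendsto (fun n => p.2 (γ, n)) atTop (𝓝 (γ.1 p.1))}
  zero_mem' γ := by simp
  add_mem' h1 h2 γ := by simpa using (h1 γ).add (h2 γ)
  smul_mem' c _ h γ := by simpa using (h γ).const_mul c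

variable {A}

lemma ev_le (h : L A) (i : I A) : |h i| ≤ ‖h‖ := lp.norm_apply_le_norm ENNReal.top_ne_zero h i

lemma Y_closed : IsClosed (Y A : Set (A × L A)) := by
  refine isClosed_of_closure_subset fun p hp γ => Metric.tendsto_nhds.2 fun ε hε => ?_
  obtain ⟨q, hq, d⟩ := Metric.mem_closure_iff.1 hp (ε / 3) (by positivity)
  rw [dist_eq_norm] at d
  filter_upwards [Metric.tendsto_nhds.1 (hq γ) (ε / 3) (by positivity)] with n hn
  have h1 := abs_lt.1 ((ev_le _ (γ, n)).trans_lt ((norm_snd_le _).trans_lt d))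
  have h2 := abs_le.1 (γ.1.le_of_opNorm_le_of_le γ.2 ((norm_fst_le _).trans d.le))
  have h3 := abs_lt.1 hn
  rw [Prod.fst_sub, map_sub] at h2
  have h4 : (p - q).2 (γ, n) = p.2 (γ, n) - q.2 (γ, n) := rfl
  rw [h4] at h1
  exact abs_lt.2 ⟨by linarith, by linarith⟩

lemma Y_le (p : Y A) {c : ℝ} (h : ∀ i, |p.1.2 i| ≤ c) : ‖p‖ ≤ c := by
  obtain ⟨g, g1, g2⟩ := exists_dual_vector'' ℝ p.1.1
  refine max_le ?_ (lp.norm_le_of_forall_le ((abs_nonneg _).trans (h (⟨g, g1⟩, 0))) h)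
  exact g2.ge.trans (le_of_tendsto' (p.2 ⟨g, g1⟩) fun n => le_of_abs_le (h _))

/-- coordinate functional -/
noncomputable def co (i : I A) : Y A →L[ℝ] ℝ :=
  LinearMap.mkContinuous ⟨⟨fun p => p.1.2 i, fun _ _ => rfl⟩, fun _ _ => rfl⟩ 1 fun p => by
    rw [one_mul]; exact (ev_le _ i).trans (norm_snd_le p.1)

lemma co_le (i : I A) (p : Y A) : |co i p| ≤ ‖p‖ := (ev_le _ i).trans (norm_snd_le p.1)

lemma lift_le (a : A) (i : I A) : |i.1.1 a| ≤ ‖a‖ := by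
  simpa using i.1.1.le_of_opNorm_le i.1.2 a

/-- canonical lift -/
noncomputable def lift : A →ₗ[ℝ] Y A where
  toFun a := ⟨(a, ⟨fun i => i.1.1 a, memℓp_infty ⟨‖a‖, by
    rintro _ ⟨i, rfl⟩; exact lift_le a i⟩⟩), fun _ => tendsto_const_nhds⟩
  map_add' a b := Subtype.ext (Prod.ext rfl (lp.ext (funext fun i => i.1.1.map_add a b)))
  map_smul' c a := Subtype.ext (Prod.ext rfl (lp.ext (funext fun i => i.1.1.map_smul c a)))

lemma norm_lift (a : A) : ‖lift a‖ = ‖a‖ :=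
  le_antisymm (Y_le _ (lift_le a)) (norm_fst_le (lift a).1)

lemma Y_pbpb {X : Type} [NormedAddCommGroup X] [NormedSpace ℝ X]
    (sm : ∀ ε > 0, ∃ η > 0, ∀ (x : X) (f : X →L[ℝ] ℝ), ‖x‖ = 1 → ‖f‖ ≤ 1 → 1 - η < |f x| →
      ∃ g : X →L[ℝ] ℝ, ‖g‖ ≤ 1 ∧ |g x| = 1 ∧ ‖g - f‖ < ε) : PBPB X (Y A) := by
  classical
  intro ε hε
  obtain ⟨η, η0, h⟩ := sm ε hε
  refine ⟨η, η0, fun T x T1 x1 hT => ?_⟩
  obtain ⟨i, hi⟩ : ∃ i, 1 - η < |co i (T x)| := by
    by_contra hn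
    push Not at hn
    exact (Y_le _ hn).not_gt hT
  have cT : ∀ j y, |co j (T y)| ≤ 1 * ‖y‖ := fun j y =>
    (co_le _ _).trans (T.le_of_opNorm_le T1.le y)
  obtain ⟨g, g1, g2, g3⟩ := h x ((co i).comp T) x1
    (ContinuousLinearMap.opNorm_le_bound _ zero_le_one (cT i)) hi
  obtain ⟨e, he⟩ : ∃ e : Y A, ∀ j, co j e = if j = i then 1 else 0 :=
    ⟨⟨(0, lp.single ∞ i 1), fun γ => by
      rw [map_zero]
      exact tendsto_const_nhds.congr' ((eventually_gt_atTop i.2).mono fun n hn =>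
        (lp.single_apply_ne (E := fun _ => ℝ) ∞ i 1 (j := (γ, n))
          fun h => hn.ne' (congrArg Prod.snd h)).symm)⟩,
      fun j => (lp.single_apply ∞ i _ j).trans (Pi.single_apply _ _ _)⟩
  have e1 : ‖e‖ ≤ 1 := Y_le _ fun j => by
    show |co j e| ≤ 1
    rw [he]; split_ifs <;> simp
  have k : ∀ j y, co j ((T + (g - (co i).comp T).smulRight e) y) =
      if j = i then g y else co j (T y) := fun j y => by
    simp only [ContinuousLinearMap.add_apply, ContinuousLinearMap.smulRight_apply, map_add,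
      map_smul, he]
    split_ifs with h <;> simp [h]
  have S1 : ‖T + (g - (co i).comp T).smulRight e‖ ≤ 1 :=
    ContinuousLinearMap.opNorm_le_bound _ zero_le_one fun y => Y_le _ fun j => by
      show |co j ((T + (g - (co i).comp T).smulRight e) y)| ≤ _
      rw [k]
      split_ifs
      · exact g.le_of_opNorm_le g1 y
      · exact cT j y
  have S2 := co_le i ((T + (g - (co i).comp T).smulRight e) x)
  have S3 := (T + (g - (co i).comp T).smulRight e).le_opNorm x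
  rw [k, if_pos rfl, g2] at S2
  rw [x1, mul_one] at S3
  refine ⟨_, le_antisymm S1 (S2.trans S3), le_antisymm (S3.trans S1) S2, ?_⟩
  rw [add_sub_cancel_left, ContinuousLinearMap.norm_smulRight_apply]
  exact (mul_le_of_le_one_right (norm_nonneg _) e1).trans_lt g3

end constr

open H29.PS

/-- There are real Banach spaces `X`, `Y` and a one-complemented closed subspace `Y₁` of `Y` such
that `(X, Y)` has the pointwise BPB property and the BPBp, while `(X, Y₁)` has neither. -/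
theorem result :
    ∃ (X Y : Type) (_ : NormedAddCommGroup X) (_ : NormedSpace ℝ X) (_ : CompleteSpace X)
      (_ : NormedAddCommGroup Y) (_ : NormedSpace ℝ Y) (_ : CompleteSpace Y)
      (Y₁ : Submodule ℝ Y) (P : Y →L[ℝ] Y), IsClosed (Y₁ : Set Y) ∧ (∀ y, P y ∈ Y₁) ∧
      (∀ y ∈ Y₁, P y = y) ∧ ‖P‖ = 1 ∧ PBPB X Y ∧ BPB X Y ∧ ¬ PBPB X Y₁ ∧ ¬ BPB X Y₁ := by
  let A := X fun n => n
  let Q : Y A →ₗ[ℝ] Y A := lift ∘ₗ LinearMap.fst ℝ _ _ ∘ₗ (Y A).subtype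
  have Q1 : ∀ y, ‖Q y‖ ≤ 1 * ‖y‖ := fun y =>
    (norm_lift _).trans_le ((norm_fst_le y.1).trans_eq (one_mul _).symm)
  have p : PBPB D (Y A) := Y_pbpb fun ε hε => ⟨ε ^ 2 / 12, by positivity,
    fun x f a b c => SM hε x a f b c⟩
  have n : ¬ BPB D (LinearMap.range (lift (A := A))) := fun h => by
    obtain ⟨η, η0, h⟩ := h (1 / 10) (by norm_num)
    obtain ⟨T, x, a, b, c, d⟩ := fail (A := LinearMap.range (lift (A := A))) (by
      rintro ⟨_, u, rfl⟩ ⟨_, v, rfl⟩ h1 h2 h3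
      have : v = 0 := Asc u v (by rw [← norm_lift, map_add]; exact h1)
        (by rw [← norm_lift, map_sub]; exact h2) (by rw [← norm_lift]; exact h3)
      exact Subtype.ext (by rw [this]; exact map_zero lift)) (fun η hη => by
      obtain ⟨u, v, h1, h2, h3, h4⟩ := Anu η hη
      rw [← norm_lift] at h1 h2 h3 h4
      rw [map_add] at h1
      rw [map_sub] at h2
      exact ⟨⟨_, u, rfl⟩, ⟨_, v, rfl⟩, h1, h2, h3, h4⟩) η0
    obtain ⟨y, S, e1, e2, e3, e4, e5⟩ := h T x a b c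
    exact (d y S e1 e2 e3 e4).not_gt e5
  refine ⟨D, Y A, inferInstance, inferInstance, inferInstance, inferInstance, inferInstance,
    Y_closed.completeSpace_coe, LinearMap.range lift, Q.mkContinuous 1 Q1,
    (AddMonoidHomClass.isometry_of_norm lift norm_lift).isClosedEmbedding.isClosed_range,
    fun y => ⟨_, rfl⟩, by rintro _ ⟨a, rfl⟩; rfl,
    le_antisymm (Q.mkContinuous_norm_le zero_le_one Q1) ?_, p, p.bpb, fun h => n h.bpb, n⟩
  obtain ⟨-, v, -, -, -, h⟩ := Anu 1 one_pos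
  have : ‖lift v‖ ≤ _ := (Q.mkContinuous 1 Q1).le_opNorm (lift v)
  rw [norm_lift] at this
  exact (le_mul_iff_one_le_left (by linarith)).1 this

end Pool.Agent.Results.MP_7aa09c_an.Counter
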